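import Mathlib

namespace Pool.Agent.Results.MP_5a8271_pr.NoConstantRate

open scoped BigOperators Nat

/-- The carrier: pairs `(n, j)` with `j ≤ n!`.  The pairs `(n, 0)` form a chain, and each `(n, j)`
with `1 ≤ j ≤ n!` is a minimal element lying below `(m, 0)` exactly when `n ≤ m`. -/
def Carrier : Type := {p : ℕ × ℕ // p.2 ≤ p.1 !}

instance : PartialOrder Carrier where
  le x y := x = y ∨ (y.1.2 = 0 ∧ x.1.1 ≤ y.1.1)
  le_refl x := Or.inl rfl
  le_trans x y z hxy hyz := by
    rcases hxy with rfl | ⟨h1, h2⟩
    · exact hyz
    · rcases hyz with rfl | ⟨h3, h4⟩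
      · exact Or.inr ⟨h1, h2⟩
      · exact Or.inr ⟨h3, h2.trans h4⟩
  le_antisymm x y hxy hyx := by
    rcases hxy with rfl | ⟨h1, h2⟩
    · rfl
    · rcases hyx with rfl | ⟨h3, h4⟩
      · rfl
      · exact Subtype.ext (Prod.ext (le_antisymm h2 h4) (by rw [h3, h1]))

lemma le_def (x y : Carrier) : x ≤ y ↔ x = y ∨ (y.1.2 = 0 ∧ x.1.1 ≤ y.1.1) := Iff.rfl

/-- The chain element at level `n`. -/
def ch (n : ℕ) : Carrier := ⟨(n, 0), Nat.zero_le _⟩

lemma ch_inj {m n : ℕ} (h : ch m = ch n) : m = n := by
  have := congrArg (fun x : Carrier => x.1.1) h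
  exact this

/-- There is a standard discrete poset without maximal elements that supports no constant rate
distribution. -/
theorem result :
    ∃ (S : Type) (_ : PartialOrder S), Nonempty S ∧ Countable S ∧
      (∀ x : S, (Set.Iic x).Finite) ∧ (∀ x : S, ¬ IsMax x) ∧
      ∀ f : S → ℝ, (∀ x, 0 ≤ f x) → HasSum f 1 → ∀ α : ℝ, 0 < α →
        ¬ ∀ x : S, 0 < (∑' y : {y : S // x ≤ y}, f y) ∧ f x = α * ∑' y : {y : S // x ≤ y}, f y := by
  refine ⟨Carrier, inferInstance, ⟨ch 0⟩, ?_, ?_, ?_, ?_⟩
  · unfold Carrier
    infer_instance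
  · intro x
    have hfin : ((Finset.range (x.1.1 + 1) ×ˢ Finset.range (x.1.1 ! + 1) : Finset (ℕ × ℕ)) :
        Set (ℕ × ℕ)).Finite := Finset.finite_toSet _
    have h2 : (insert x (Subtype.val ⁻¹' ((Finset.range (x.1.1 + 1) ×ˢ
        Finset.range (x.1.1 ! + 1) : Finset (ℕ × ℕ)) : Set (ℕ × ℕ))) : Set Carrier).Finite :=
      (hfin.preimage Subtype.val_injective.injOn).insert x
    refine h2.subset ?_
    intro y hy
    rcases (le_def y x).1 hy with rfl | ⟨_, h⟩
    · exact Set.mem_insert _ _
    · refine Set.mem_insert_of_mem _ ?_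
      simp only [Finset.coe_product, Finset.coe_range, Set.mem_preimage, Set.mem_prod, Set.mem_Iio]
      exact ⟨by omega, Nat.lt_succ_of_le (y.2.trans (Nat.factorial_le h))⟩
  · intro x hx
    have h1 : x ≤ ch (x.1.1 + 1) := Or.inr ⟨rfl, Nat.le_succ _⟩
    have h2 := hx h1
    rcases (le_def _ _).1 h2 with h | ⟨_, h⟩
    · have := congrArg (fun x : Carrier => x.1.1) h
      simp [ch] at this
    · simp [ch] at h
  · intro f hf0 hsum α hα hcon
    have hsm : Summable f := hsum.summable
    set F : Carrier → ℝ := fun x => ∑' y : {y : Carrier // x ≤ y}, f y with hF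
    have hFpos : ∀ x, 0 < F x := fun x => (hcon x).1
    have hfF : ∀ x, f x = α * F x := fun x => (hcon x).2
    have hsub : ∀ s : Set Carrier, Summable (fun y : s => f y) := fun s => hsm.subtype s
    have hFi : ∀ x, F x = ∑' y, Set.indicator {y : Carrier | x ≤ y} f y := by
      intro x
      exact tsum_subtype {y : Carrier | x ≤ y} f
    have hind : ∀ s : Set Carrier, Summable (Set.indicator s f) := fun s => hsm.indicator s
    -- splitting off one element
    have hsplit : ∀ x z : Carrier, (∀ y, x ≤ y ↔ (y = x ∨ z ≤ y)) → ¬ z ≤ x →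
        F x = f x + F z := by
      intro x z h1 h2
      rw [hFi x, hFi z]
      have : ∀ y, Set.indicator {y : Carrier | x ≤ y} f y
          = Set.indicator {x} f y + Set.indicator {y : Carrier | z ≤ y} f y := by
        intro y
        by_cases hy : y = x
        · subst hy
          rw [Set.indicator_of_mem (show y ∈ {w : Carrier | y ≤ w} from le_refl y),
            Set.indicator_of_mem (Set.mem_singleton y),
            Set.indicator_of_notMem (show y ∉ {w : Carrier | z ≤ w} from h2), add_zero]
        · rw [Set.indicator_of_notMem (show y ∉ ({x} : Set Carrier) from hy), zero_add]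
          by_cases hz : z ≤ y
          · rw [Set.indicator_of_mem (show y ∈ {w : Carrier | x ≤ w} from (h1 y).2 (Or.inr hz)),
              Set.indicator_of_mem (show y ∈ {w : Carrier | z ≤ w} from hz)]
          · rw [Set.indicator_of_notMem (show y ∉ {w : Carrier | x ≤ w} from fun h => by
                rcases (h1 y).1 h with h | h
                · exact hy h
                · exact hz h),
              Set.indicator_of_notMem (show y ∉ {w : Carrier | z ≤ w} from hz)]
      rw [tsum_congr this, (hind _).tsum_add (hind _)]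
      congr 1
      rw [← tsum_subtype {x} f, tsum_singleton]
    have hchain : ∀ n, F (ch n) = f (ch n) + F (ch (n + 1)) := by
      intro n
      apply hsplit
      · intro y
        rw [le_def, le_def]
        constructor
        · rintro (h | ⟨h1, h2⟩)
          · exact Or.inl h.symm
          · rcases Nat.eq_or_lt_of_le h2 with h3 | h3
            · left
              exact Subtype.ext (Prod.ext h3.symm h1)
            · right; right
              exact ⟨h1, h3⟩
        · rintro (h | h | ⟨h1, h2⟩)
          · exact Or.inl h.symm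
          · right
            rw [← h]
            exact ⟨rfl, Nat.le_succ n⟩
          · exact Or.inr ⟨h1, (Nat.le_succ n).trans h2⟩
      · intro h
        rcases (le_def _ _).1 h with h | ⟨_, h⟩
        · exact absurd (ch_inj h) (by omega)
        · simp [ch] at h
    have hα1 : α < 1 := by
      have h1 := hchain 0
      rw [hfF (ch 0)] at h1
      have h2 := hFpos (ch 0)
      have h3 := hFpos (ch (0 + 1))
      by_contra hge
      push Not at hge
      nlinarith
    have hgeo : ∀ n, F (ch n) = (1 - α) ^ n * F (ch 0) := by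
      intro n
      induction n with
      | zero => simp
      | succ n ih =>
        have h1 := hchain n
        rw [hfF (ch n)] at h1
        have : F (ch (n + 1)) = (1 - α) * F (ch n) := by linarith
        rw [this, ih, pow_succ]
        ring
    -- the minimal elements attached at level `n`
    have hmin : ∀ (n j : ℕ) (hj : j ≤ n !) (hj0 : j ≠ 0),
        α * F (ch n) ≤ f ⟨(n, j), hj⟩ := by
      intro n j hj hj0
      have h1 : F ⟨(n, j), hj⟩ = f ⟨(n, j), hj⟩ + F (ch n) := by
        apply hsplit
        · intro y
          rw [le_def, le_def]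
          constructor
          · rintro (h | ⟨h1, h2⟩)
            · exact Or.inl h.symm
            · exact Or.inr (Or.inr ⟨h1, h2⟩)
          · rintro (h | h | ⟨h1, h2⟩)
            · exact Or.inl h.symm
            · right
              rw [← h]
              exact ⟨rfl, le_refl n⟩
            · exact Or.inr ⟨h1, h2⟩
        · intro h
          rcases (le_def _ _).1 h with h | ⟨h, _⟩
          · have := congrArg (fun x : Carrier => x.1.2) h
            exact hj0 this.symm
          · exact hj0 h
      have h2 := hfF ⟨(n, j), hj⟩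
      have h3 := hf0 ⟨(n, j), hj⟩
      rw [h2]
      have : F (ch n) ≤ F ⟨(n, j), hj⟩ := by linarith
      exact mul_le_mul_of_nonneg_left this hα.le
    -- summing over the level `n`
    have hlevel : ∀ n : ℕ, (n ! : ℝ) * (α * ((1 - α) ^ n * F (ch 0))) ≤ 1 := by
      intro n
      let e : Fin (n !) ↪ Carrier :=
        ⟨fun j => ⟨(n, j.1 + 1), j.2⟩, fun a b h => by
          have := congrArg (fun x : Carrier => x.1.2) h
          exact Fin.ext (by simpa using this)⟩
      have h1 : ∑ x ∈ (Finset.univ : Finset (Fin (n !))).map e, f x ≤ 1 :=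
        sum_le_hasSum _ (fun x _ => hf0 x) hsum
      rw [Finset.sum_map] at h1
      have h2 : ∑ _j : Fin (n !), (α * ((1 - α) ^ n * F (ch 0))) ≤ ∑ j : Fin (n !), f (e j) := by
        refine Finset.sum_le_sum fun j _ => ?_
        rw [← hgeo n]
        exact hmin n (j.1 + 1) j.2 (Nat.succ_ne_zero _)
      rw [Finset.sum_const, Finset.card_univ, Fintype.card_fin, nsmul_eq_mul] at h2
      exact h2.trans h1
    -- factorials beat exponentials
    have h1α : 0 < 1 - α := by linarith
    have hF0 := hFpos (ch 0)
    have hlim := FloorSemiring.tendsto_pow_div_factorial_atTop (1 / (1 - α))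
    have hc : 0 < α * F (ch 0) := mul_pos hα hF0
    obtain ⟨n, hn⟩ := (hlim.eventually (gt_mem_nhds hc)).exists
    have h3 := hlevel n
    have h4 : (0 : ℝ) < n ! := by exact_mod_cast Nat.factorial_pos n
    have h5 : (0 : ℝ) < (1 - α) ^ n := pow_pos h1α n
    rw [div_pow, one_pow, div_div, div_lt_iff₀ (mul_pos h5 h4)] at hn
    nlinarith

end Pool.Agent.Results.MP_5a8271_pr.NoConstantRate
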